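import Pool.Agent.N198.NF.Def

/-!
# Primes of odd residue degree (project NF of helper198, leaf ODD, helper255)
-/

set_option autoImplicit false

namespace Pool.Agent.N255.NF

open NumberField Pool.Agent.N198.NF

theorem card_of_surj {κ : Type} [Field κ] {ℓ : ℕ} (hℓ : ℓ.Prime) (h0 : (ℓ : κ) = 0)
    (hs : ∀ x : κ, ∃ n : ℤ, (n : κ) = x) : Nat.card κ = ℓ := by
  have : Fact ℓ.Prime := ⟨hℓ⟩
  have : CharP κ ℓ := (CharP.charP_iff_prime_eq_zero hℓ).2 h0
  have hb : Function.Bijective (ZMod.castHom (dvd_refl ℓ) κ) := by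
    refine ⟨RingHom.injective _, fun x => ?_⟩
    obtain ⟨n, rfl⟩ := hs x
    exact ⟨(n : ZMod ℓ), map_intCast _ n⟩
  rw [← Nat.card_congr (Equiv.ofBijective _ hb), Nat.card_zmod]

section

variable {k : Type} [Field k] [NumberField k] (S : Finset k)

/-- the elements of `S` as integers of the field generated by `S` -/
def S' : Set (𝓞 (IntermediateField.adjoin ℚ (S : Set k))) :=
  {s | (((s : IntermediateField.adjoin ℚ (S : Set k)) : k)) ∈ S}

/-- the ring generated by `S` -/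
def Z' : Subalgebra ℤ (𝓞 (IntermediateField.adjoin ℚ (S : Set k))) := Algebra.adjoin ℤ (S' S)

variable {S}

theorem mult_mem (hS : ∀ x ∈ S, ∃ d : ℕ, x ^ 2 = (d : k)) :
    ∀ y : k, y ∈ IntermediateField.adjoin ℚ (S : Set k) → ∃ n : ℕ, 0 < n ∧ ∃ z ∈ Z' S,
      (((z : IntermediateField.adjoin ℚ (S : Set k)) : k)) = n * y := by
  intro y hy
  have halg : (IntermediateField.adjoin ℚ (S : Set k)).toSubalgebra =
      Algebra.adjoin ℚ (S : Set k) :=
    IntermediateField.adjoin_toSubalgebra_of_isAlgebraic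
      (fun x _ => Algebra.IsAlgebraic.isAlgebraic x)
  have hy' : y ∈ Algebra.adjoin ℚ (S : Set k) := by
    rw [← halg]; exact hy
  clear hy
  induction hy' using Algebra.adjoin_induction with
  | mem y hy =>
    obtain ⟨d, hd⟩ := hS y hy
    have hm : y ∈ IntermediateField.adjoin ℚ (S : Set k) :=
      IntermediateField.subset_adjoin ℚ _ hy
    have hint : IsIntegral ℤ (⟨y, hm⟩ : IntermediateField.adjoin ℚ (S : Set k)) := by
      refine IsIntegral.of_pow two_pos ?_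
      have e : (⟨y, hm⟩ : IntermediateField.adjoin ℚ (S : Set k)) ^ 2 =
          algebraMap ℤ (IntermediateField.adjoin ℚ (S : Set k)) d := by
        apply Subtype.ext
        rw [SubmonoidClass.coe_pow]
        simp [hd]
      rw [e]
      exact isIntegral_algebraMap
    refine ⟨1, one_pos, ⟨⟨y, hm⟩, hint⟩, Algebra.subset_adjoin hy, ?_⟩
    rw [Nat.cast_one, one_mul]
    rfl
  | algebraMap r =>
    refine ⟨r.den, r.den_pos, (r.num : 𝓞 (IntermediateField.adjoin ℚ (S : Set k))),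
      intCast_mem _ _, ?_⟩
    have h1 : ((r.den : ℚ)) * r = r.num := Rat.den_mul_eq_num r
    have h2 := congrArg (algebraMap ℚ k) h1
    rw [map_mul, map_natCast, map_intCast] at h2
    rw [h2]
    simp
  | add y₁ y₂ _ _ ih₁ ih₂ =>
    obtain ⟨n₁, hn₁, z₁, hz₁, e₁⟩ := ih₁
    obtain ⟨n₂, hn₂, z₂, hz₂, e₂⟩ := ih₂
    refine ⟨n₁ * n₂, Nat.mul_pos hn₁ hn₂, (n₂ : 𝓞 (IntermediateField.adjoin ℚ (S : Set k))) * z₁ +
      (n₁ : 𝓞 (IntermediateField.adjoin ℚ (S : Set k))) * z₂, ?_, ?_⟩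
    · exact add_mem (mul_mem (natCast_mem _ _) hz₁) (mul_mem (natCast_mem _ _) hz₂)
    · push_cast
      rw [e₁, e₂]
      ring
  | mul y₁ y₂ _ _ ih₁ ih₂ =>
    obtain ⟨n₁, hn₁, z₁, hz₁, e₁⟩ := ih₁
    obtain ⟨n₂, hn₂, z₂, hz₂, e₂⟩ := ih₂
    refine ⟨n₁ * n₂, Nat.mul_pos hn₁ hn₂, z₁ * z₂, mul_mem hz₁ hz₂, ?_⟩
    push_cast
    rw [e₁, e₂]
    ring

theorem exists_n0 (hS : ∀ x ∈ S, ∃ d : ℕ, x ^ 2 = (d : k)) : ∃ n₀ : ℕ, 0 < n₀ ∧
    ∀ b : 𝓞 (IntermediateField.adjoin ℚ (S : Set k)),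
      (n₀ : 𝓞 (IntermediateField.adjoin ℚ (S : Set k))) * b ∈ Z' S := by
  classical
  have h1 : ∀ b : 𝓞 (IntermediateField.adjoin ℚ (S : Set k)), ∃ n : ℕ, 0 < n ∧
      (n : 𝓞 (IntermediateField.adjoin ℚ (S : Set k))) * b ∈ Z' S := by
    intro b
    obtain ⟨n, hn, z, hz, e⟩ := mult_mem hS
      ((b : IntermediateField.adjoin ℚ (S : Set k)) : k)
      (b : IntermediateField.adjoin ℚ (S : Set k)).2
    refine ⟨n, hn, ?_⟩
    have e2 : (n : 𝓞 (IntermediateField.adjoin ℚ (S : Set k))) * b = z := by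
      apply RingOfIntegers.ext
      apply Subtype.ext
      rw [e]
      push_cast
      rfl
    rw [e2]
    exact hz
  choose n hn0 hn using h1
  obtain ⟨T, hT⟩ := (Module.Finite.fg_top :
    (⊤ : Submodule ℤ (𝓞 (IntermediateField.adjoin ℚ (S : Set k)))).FG)
  refine ⟨∏ t ∈ T, n t, Finset.prod_pos fun t _ => hn0 t, fun b => ?_⟩
  have hb : b ∈ Submodule.span ℤ (T : Set (𝓞 (IntermediateField.adjoin ℚ (S : Set k)))) := by
    rw [hT]; exact Submodule.mem_top
  induction hb using Submodule.span_induction with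
  | mem t ht =>
    rw [← Finset.mul_prod_erase T n ht, mul_comm (n t)]
    push_cast
    rw [mul_assoc]
    refine mul_mem (prod_mem fun i _ => natCast_mem _ _) (hn t)
  | zero => rw [mul_zero]; exact zero_mem _
  | add a b _ _ ha hb => rw [mul_add]; exact add_mem ha hb
  | smul c a _ ha =>
    rw [mul_smul_comm]
    exact (Z' S).smul_mem ha c

/-- The residue field at a maximal ideal above a prime modulo which the `d` are squares. -/
theorem card_res {ℓ n₀ : ℕ} (hℓ : ℓ.Prime) (hn₀ : 0 < n₀) (hn₀ℓ : n₀ < ℓ)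
    (hb : ∀ b : 𝓞 (IntermediateField.adjoin ℚ (S : Set k)),
      (n₀ : 𝓞 (IntermediateField.adjoin ℚ (S : Set k))) * b ∈ Z' S)
    (hsq : ∀ x ∈ S, ∃ d : ℕ, x ^ 2 = (d : k) ∧ IsSquare ((d : ℕ) : ZMod ℓ))
    (p : Ideal (𝓞 (IntermediateField.adjoin ℚ (S : Set k)))) [p.IsMaximal]
    (hp : (ℓ : 𝓞 (IntermediateField.adjoin ℚ (S : Set k))) ∈ p) :
    Nat.card (𝓞 (IntermediateField.adjoin ℚ (S : Set k)) ⧸ p) = ℓ := by
  letI : Field (𝓞 (IntermediateField.adjoin ℚ (S : Set k)) ⧸ p) := Ideal.Quotient.field p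
  have h0 : ((ℓ : ℕ) : 𝓞 (IntermediateField.adjoin ℚ (S : Set k)) ⧸ p) = 0 := by
    have := Ideal.Quotient.eq_zero_iff_mem.2 hp
    rwa [map_natCast] at this
  have hZ : ∀ z ∈ Z' S, ∃ n : ℤ, ((n : ℤ) : 𝓞 (IntermediateField.adjoin ℚ (S : Set k)) ⧸ p) =
      Ideal.Quotient.mk p z := by
    intro z hz
    induction hz using Algebra.adjoin_induction with
    | mem s hs =>
      obtain ⟨d, hd, r, hr⟩ := hsq _ hs
      have hdiv : ((r.val : ℤ)) ^ 2 - (d : ℤ) = (ℓ : ℤ) * (((r.val : ℤ) ^ 2 - d) / ℓ) := by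
        have h1 : (((r.val : ℤ) ^ 2 - (d : ℤ) : ℤ) : ZMod ℓ) = 0 := by
          have : NeZero ℓ := ⟨hℓ.ne_zero⟩
          push_cast
          rw [ZMod.natCast_zmod_val, hr]
          ring
        rw [ZMod.intCast_zmod_eq_zero_iff_dvd] at h1
        exact (Int.mul_ediv_cancel' h1).symm
      have h2 : (((r.val : ℤ) : ℤ) : 𝓞 (IntermediateField.adjoin ℚ (S : Set k)) ⧸ p) ^ 2 =
          ((d : ℕ) : 𝓞 (IntermediateField.adjoin ℚ (S : Set k)) ⧸ p) := by
        have h3 := congrArg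
          (Int.cast : ℤ → 𝓞 (IntermediateField.adjoin ℚ (S : Set k)) ⧸ p) hdiv
        push_cast at h3
        rw [h0, zero_mul, sub_eq_zero] at h3
        push_cast
        exact h3
      have h4 : (Ideal.Quotient.mk p s) ^ 2 =
          ((d : ℕ) : 𝓞 (IntermediateField.adjoin ℚ (S : Set k)) ⧸ p) := by
        have h5 : s ^ 2 = (d : 𝓞 (IntermediateField.adjoin ℚ (S : Set k))) := by
          apply RingOfIntegers.ext
          apply Subtype.ext
          push_cast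
          exact hd
        rw [← map_pow, h5, map_natCast]
      have h6 := sq_eq_sq_iff_eq_or_eq_neg.1 (h4.trans h2.symm)
      rcases h6 with h6 | h6
      · exact ⟨(r.val : ℤ), h6.symm⟩
      · refine ⟨-(r.val : ℤ), ?_⟩
        rw [h6, Int.cast_neg]
    | algebraMap n => exact ⟨n, by simp⟩
    | add a b _ _ ha hb =>
      obtain ⟨n, hn⟩ := ha
      obtain ⟨m, hm⟩ := hb
      exact ⟨n + m, by rw [Int.cast_add, hn, hm, map_add]⟩
    | mul a b _ _ ha hb =>
      obtain ⟨n, hn⟩ := ha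
      obtain ⟨m, hm⟩ := hb
      exact ⟨n * m, by rw [Int.cast_mul, hn, hm, map_mul]⟩
  refine card_of_surj hℓ h0 fun x => ?_
  obtain ⟨b, rfl⟩ := Ideal.Quotient.mk_surjective x
  obtain ⟨n, hn⟩ := hZ _ (hb b)
  rw [map_mul, map_natCast] at hn
  have hco : IsCoprime (n₀ : ℤ) (ℓ : ℤ) := by
    rw [Nat.isCoprime_iff_coprime]
    exact ((Nat.Prime.coprime_iff_not_dvd hℓ).2 (Nat.not_dvd_of_pos_of_lt hn₀ hn₀ℓ)).symm
  obtain ⟨u, v, huv⟩ := hco
  have h7 := congrArg (Int.cast : ℤ → 𝓞 (IntermediateField.adjoin ℚ (S : Set k)) ⧸ p) huv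
  push_cast at h7
  rw [h0, mul_zero, add_zero] at h7
  refine ⟨u * n, ?_⟩
  rw [Int.cast_mul, hn, ← mul_assoc, h7, one_mul]

end

/-- Primes of odd residue degree. -/
theorem oddPrimes {k : Type} [Field k] [NumberField k] (S : Finset k)
    (hS : ∀ x ∈ S, ∃ d : ℕ, x ^ 2 = (d : k))
    (hodd : Odd (Module.finrank (IntermediateField.adjoin ℚ (S : Set k)) k)) : OddPrimes k := by
  obtain ⟨n₀, hn₀, hb⟩ := exists_n0 hS
  choose! d hd using hS
  refine ⟨n₀ + ∑ x ∈ S, d x, fun ℓ hℓ hD hsq => ?_⟩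
  have hsq' : ∀ x ∈ S, ∃ d : ℕ, x ^ 2 = (d : k) ∧ IsSquare ((d : ℕ) : ZMod ℓ) := by
    intro x hx
    refine ⟨d x, hd x hx, hsq _ ?_⟩
    exact (Finset.single_le_sum (fun _ _ => Nat.zero_le _) hx).trans (Nat.le_add_left _ _)
  have hℓ' : Prime (ℓ : ℤ) := Nat.prime_iff_prime_int.1 hℓ
  have hpℓ : (Ideal.span {(ℓ : ℤ)}).IsMaximal :=
    PrincipalIdealRing.isMaximal_of_irreducible hℓ'.irreducible
  obtain ⟨p, hpm, hpo⟩ := Ideal.exists_maximal_ideal_liesOver_of_isIntegral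
    (S := 𝓞 (IntermediateField.adjoin ℚ (S : Set k))) (Ideal.span {(ℓ : ℤ)})
  have hp : (ℓ : 𝓞 (IntermediateField.adjoin ℚ (S : Set k))) ∈ p := by
    have h1 : (ℓ : ℤ) ∈ Ideal.span {(ℓ : ℤ)} := Ideal.mem_span_singleton_self _
    rw [hpo.over, Ideal.mem_comap] at h1
    simpa using h1
  have hcard := card_res hℓ hn₀ (by omega) hb hsq' p hp
  have hp0 : p ≠ ⊥ := by
    rintro rfl
    rw [Ideal.mem_bot, Nat.cast_eq_zero] at hp
    exact hℓ.ne_zero hp
  have hsum := Ideal.sum_ramification_inertia (𝓞 k)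
    (IntermediateField.adjoin ℚ (S : Set k)) k (p := p) hp0
  have hex : ∃ P ∈ IsDedekindDomain.primesOverFinset p (𝓞 k), Odd (p.inertiaDeg' P) := by
    by_contra hcon
    push Not at hcon
    rw [← Nat.not_even_iff_odd, ← hsum] at hodd
    apply hodd
    refine Finset.even_sum _ fun P hP => ?_
    have := hcon P hP
    rw [Nat.not_odd_iff_even] at this
    exact this.mul_left _
  obtain ⟨P, hP, hPo⟩ := hex
  rw [IsDedekindDomain.mem_primesOverFinset_iff hp0] at hP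
  obtain ⟨hP1, hP2⟩ := hP
  have hP0 : P ≠ ⊥ := by
    rintro rfl
    have h1 : p = ⊥ := by
      rw [hP2.over]
      exact Ideal.comap_bot_of_injective _ (FaithfulSMul.algebraMap_injective _ _)
    exact hp0 h1
  have hPm : P.IsMaximal := hP1.isMaximal hP0
  have hnorm := Ideal.absNorm_eq_pow_inertiaDeg'_of_liesOver P p hpm.isPrime hp0
  have hpn : Ideal.absNorm p = ℓ := by
    rw [Ideal.absNorm_apply, Submodule.cardQuot_apply]
    exact hcard
  rw [hpn] at hnorm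
  letI : Field (𝓞 k ⧸ P) := Ideal.Quotient.field P
  have hfin : Finite (𝓞 k ⧸ P) := inferInstance
  letI : Fintype (𝓞 k ⧸ P) := Fintype.ofFinite _
  refine ⟨𝓞 k ⧸ P, inferInstance, inferInstance, Ideal.Quotient.mk P,
    Ideal.Quotient.mk_surjective, p.inertiaDeg' P, hPo, ?_⟩
  rw [← hnorm, ← Nat.card_eq_fintype_card, Ideal.absNorm_apply, Submodule.cardQuot_apply]

end Pool.Agent.N255.NF
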